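import Mathlib
import Pool.Agent.K7.H49.ME.QC

/-!
# Almost all slopes

For all functions `h_1, ..., h_k` with `|h_i(q)| ≤ H q` and almost all real `α_1, ..., α_k` the integers `n` for which
at least `n / (log n) ^ (k + 16)` of the `m`, `1 ≤ m < n - 2`, are such that `q = φ(m) + φ(n - m) / 2 + 1` and all the
numbers `p_q + ⌊α_i q⌋ + h_i(q)` are prime have a positive upper density, bounded below in terms of `k` only.
The question has `k = 2`, `α_1 = α_2 = -1`, `h_1 = -1`, `h_2 = 1`.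
-/

set_option autoImplicit false

namespace Pool.Agent.Results.MP_61a569_nt.AlmostAllSlopes

open Finset MeasureTheory Filter
open scoped Classical

/-- the `m`-th prime: `p 1 = 2`, `p 2 = 3` -/
noncomputable def p (m : ℕ) : ℕ := Nat.nth Nat.Prime (m - 1)

/-- `q n m = φ(m) + φ(n - m) / 2 + 1` -/
def q (n m : ℕ) : ℕ := Nat.totient m + Nat.totient (n - m) / 2 + 1

/-- the set of the `m`, `1 ≤ m < n - 2`, for which `q = q n m` and all `p_q + ⌊α_i q⌋ + h_i(q)` are prime -/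
def admissible {k : ℕ} (h : Fin k → ℕ → ℤ) (α : Fin k → ℝ) (n : ℕ) : Set ℕ :=
  {m : ℕ | 1 ≤ m ∧ m + 2 < n ∧ (q n m).Prime ∧
    ∀ i, ∃ l : ℕ, l.Prime ∧ (l : ℤ) = p (q n m) + ⌊α i * (q n m : ℝ)⌋ + h i (q n m)}

/-- the set of the `n`, `32 ≤ n ≤ x`, with at least `n / (log n) ^ (k + 16)` such `m` -/
def good {k : ℕ} (h : Fin k → ℕ → ℤ) (α : Fin k → ℝ) (x : ℕ) : Set ℕ :=
  {n : ℕ | 32 ≤ n ∧ n ≤ x ∧ (n : ℝ) / Real.log n ^ (k + 16) ≤ ((admissible h α n).ncard : ℝ)}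

theorem result (k : ℕ) : ∃ c : ℝ, 0 < c ∧ ∀ (h : Fin k → ℕ → ℤ) (H : ℝ), (∀ i n, |(h i n : ℝ)| ≤ H * n) →
    ∀ᵐ α : Fin k → ℝ, ∃ᶠ x : ℕ in atTop, c * x ≤ ((good h α x).ncard : ℝ) := by
  obtain ⟨c, hc, hmain⟩ := Pool.Agent.K7.H49.ME.q_dens k
  refine ⟨c, hc, fun h H hh => ?_⟩
  have hh' : ∀ i n, |(h i n : ℝ)| ≤ max H 0 * n := fun i n =>
    (hh i n).trans (mul_le_mul_of_nonneg_right (le_max_left _ _) (Nat.cast_nonneg _))
  filter_upwards [hmain h (max H 0) (le_max_right _ _) hh'] with α hα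
  refine hα.mono fun x hx => hx.trans (Nat.cast_le.2 (Set.ncard_le_ncard ?_ ?_))
  · rintro n ⟨h1, h2, h3⟩
    refine ⟨h1, h2, h3.trans (Nat.cast_le.2 (Set.ncard_le_ncard ?_ ?_))⟩
    · rintro m ⟨e1, e2, e3, e4⟩
      refine ⟨e1, e2, e3, fun i => ⟨_, e4 i, ?_⟩⟩
      have e5 : 0 ≤ Pool.Agent.K7.H49.ME.uq h i (Pool.Agent.K7.H49.ME.qv n m) + ⌊α i * (Pool.Agent.K7.H49.ME.qv n m : ℝ)⌋ := by
        by_contra hneg
        push Not at hneg
        have e6 := e4 i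
        rw [Int.toNat_of_nonpos hneg.le] at e6
        exact Nat.not_prime_zero e6
      rw [Int.toNat_of_nonneg e5]
      unfold Pool.Agent.K7.H49.ME.uq
      show _ = (Nat.nth Nat.Prime (Pool.Agent.K7.H49.ME.qv n m - 1) : ℤ) + ⌊α i * (Pool.Agent.K7.H49.ME.qv n m : ℝ)⌋ +
        h i (Pool.Agent.K7.H49.ME.qv n m)
      ring
    · exact (Set.finite_Iic n).subset fun m hm => by
        have := hm.2.1
        exact Set.mem_Iic.2 (by omega)
  · exact (Set.finite_Iic x).subset fun n hn => hn.2.1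

end Pool.Agent.Results.MP_61a569_nt.AlmostAllSlopes
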