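import Pool.Agent.K7.H49.LT.DN2

set_option autoImplicit false

/-! # Primes `q` with `p_q - q + h_1, ..., p_q - q + h_k` prime for almost all shifts from thin families

The problem asks for primes `q` (of the form `q(n,k)`) with `p_q - q - 1` and `p_q - q + 1` prime. Here `-1` and `1` are
replaced by almost all vectors of shifts `h_1, ..., h_k` from families of nearly minimal additive energy (values of
polynomials, convex sequences, integers composed of few given primes), and `q` runs through any set of primes,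
for instance the set of the primes `q(n,k)` belonging to one `n`.
-/

namespace Pool.Agent.Results.MP_61a569_nt.ThinShifts

open Finset

/-- The `m`-th prime: `p 1 = 2`, `p 2 = 3`. -/
noncomputable def p (m : ℕ) : ℕ := Nat.nth Nat.Prime (m - 1)

/-- `q n k = φ(k) + φ(n - k) / 2 + 1`. -/
def q (n k : ℕ) : ℕ := Nat.totient k + Nat.totient (n - k) / 2 + 1

/-- the set of the primes `q n k`, `1 ≤ k < n - 2` -/
def primesOf (n : ℕ) : Finset ℕ := ((Icc 1 (n - 3)).image (q n)).filter Nat.Prime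

/-- the number of solutions of `s(v 1) + ... + s(v r) = s(w 1) + ... + s(w r)` with all `v i`, `w i` in
`{1, ..., x}` -/
def energy (r x : ℕ) (s : ℕ → ℤ) : ℕ :=
  (((Fintype.piFinset fun _ : Fin r => Icc 1 x) ×ˢ (Fintype.piFinset fun _ : Fin r => Icc 1 x)).filter
    (fun q => ∑ i, s (q.1 i) = ∑ i, s (q.2 i))).card

/-- the number of the `m ∈ 𝒬` for which all the numbers `p_m - m + h_i` are prime (they are positive in the theorem) -/
noncomputable def count {k : ℕ} (h : Fin k → ℤ) (𝒬 : Finset ℕ) : ℕ :=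
  (𝒬.filter (fun m => ∀ i, ((p m : ℤ) - m + h i).toNat.Prime)).card

/-- the number of the `m ∈ 𝒬` for which none of the numbers `p_m - m + h_i` has a prime factor `≤ z` -/
noncomputable def rough {k : ℕ} (h : Fin k → ℤ) (𝒬 : Finset ℕ) (z : ℕ) : ℕ :=
  (𝒬.filter (fun m => ∀ q ∈ (Icc 1 z).filter Nat.Prime, ∀ i, ¬ (q : ℤ) ∣ (p m : ℤ) - m + h i)).card

/-- the prediction: the density of the primes among the integers of size `N` without prime factors `≤ z` is
`1 / (log N ∏_{q ≤ z} (1 - 1/q))` -/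
noncomputable def expected {k : ℕ} (h : Fin k → ℤ) (𝒬 : Finset ℕ) (z N : ℕ) : ℝ :=
  rough h 𝒬 z / (Real.log N * ∏ q ∈ (Icc 1 z).filter Nat.Prime, (1 - 1 / (q : ℝ))) ^ k

open Classical in
/-- the number of the vectors `l`, `1 ≤ l_i ≤ x_i`, for which the number of the `m ∈ 𝒬` with all
`p_m - m + s_i(l_i)` prime is not as predicted -/
noncomputable def exceptions {k : ℕ} (ε : ℝ) (A N : ℕ) (x : Fin k → ℕ) (s : Fin k → ℕ → ℤ) (𝒬 : Finset ℕ) (z : ℕ) : ℕ :=
  ((Fintype.piFinset fun i => Icc 1 (x i)).filter (fun l => ¬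
    |(count (fun i => s i (l i)) 𝒬 : ℝ) - expected (fun i => s i (l i)) 𝒬 z N| ≤
      ε * expected (fun i => s i (l i)) 𝒬 z N + N / Real.log N ^ A)).card

lemma step (i : ℕ) (hi : 1 ≤ i) : Nat.nth Nat.Prime i + 2 ≤ Nat.nth Nat.Prime (i + 1) := by
  have h1 : Nat.nth Nat.Prime i < Nat.nth Nat.Prime (i + 1) := Nat.nth_strictMono Nat.infinite_setOfPred_prime (Nat.lt_succ_self i)
  have h2 : Nat.nth Nat.Prime 0 < Nat.nth Nat.Prime i := Nat.nth_strictMono Nat.infinite_setOfPred_prime (by omega)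
  have h3 : (Nat.nth Nat.Prime 0).Prime := Nat.prime_nth_prime 0
  have h4 : (Nat.nth Nat.Prime i).Prime := Nat.prime_nth_prime i
  have h5 : (Nat.nth Nat.Prime (i + 1)).Prime := Nat.prime_nth_prime (i + 1)
  have h6 := h3.two_le
  rcases h4.eq_two_or_odd with h7 | h7
  · omega
  rcases h5.eq_two_or_odd with h8 | h8
  · omega
  omega

lemma steps (i d : ℕ) (hi : 1 ≤ i) : Nat.nth Nat.Prime i + 2 * d ≤ Nat.nth Nat.Prime (i + d) := by
  induction d with
  | zero => simp
  | succ d ih =>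
    have := step (i + d) (by omega)
    have e : i + (d + 1) = i + d + 1 := by omega
    rw [e]
    omega

lemma inj {m m' : ℕ} (hm : 2 ≤ m) (hlt : m < m') : (p m : ℤ) - m < (p m' : ℤ) - m' := by
  unfold p
  have h1 := steps (m - 1) (m' - m) (by omega)
  have e : m - 1 + (m' - m) = m' - 1 := by omega
  rw [e] at h1
  omega

lemma pos {m : ℕ} (hm : 1 ≤ m) : 0 < (p m : ℤ) - m := by
  unfold p
  have := Nat.add_two_le_nth_prime (m - 1)
  omega

/-- **Primes `q` with `p_q - q + h_1, ..., p_q - q + h_k` prime for almost all shifts from thin families.** For all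
`k`, `A`, `B`, `H` and `ε > 0` there is a `D` such that for all `E` and all large `N` the following holds.

Let `𝒬` be any set of primes `q ≤ N`. For each `i ≤ k` let `s_i(1), ..., s_i(x_i)` be integers of absolute value
at most `N (log N)^B` with additive energy `E_r(s_i) ≤ x_i^(2 r) (log N)^B / N`, for some `r ≤ H`, such that all
`p_q - q + s_i(l)`, `q ∈ 𝒬`, are positive. Then for every integer `z` with `(log N)^D ≤ z ≤ (log N)^E` and all but
`(log N)^(-A) x_1 ... x_k` of the vectors `(l_1, ..., l_k)`, `1 ≤ l_i ≤ x_i`, the number of the `q ∈ 𝒬` for which all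
`p_q - q + s_i(l_i)` are prime is the number of the `q ∈ 𝒬` for which none of them has a prime factor `≤ z`, divided by
`(log N ∏_{q ≤ z} (1 - 1/q))^k`, up to `ε` times this quantity plus `N / (log N)^A`. In particular this holds
for the set of the primes `q(n,k)`, `1 ≤ k < n - 2`, of any `n ≤ N`. -/
theorem result (k A B H : ℕ) (ε : ℝ) (hε : 0 < ε) : ∃ D : ℕ, ∀ E : ℕ, ∃ N₀ : ℕ, ∀ N : ℕ, N₀ ≤ N →
    ∀ 𝒬 : Finset ℕ, ((∀ q ∈ 𝒬, q.Prime ∧ q ≤ N) ∨ ∃ n ≤ N, 𝒬 = primesOf n) →
    ∀ (x : Fin k → ℕ) (s : Fin k → ℕ → ℤ),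
    (∀ i, ∀ l ∈ Icc 1 (x i), |(s i l : ℝ)| ≤ N * Real.log N ^ B ∧ ∀ q ∈ 𝒬, 0 < (p q : ℤ) - q + s i l) →
    (∀ i, ∃ r ≤ H, (energy r (x i) (s i) : ℝ) * N ≤ Real.log N ^ B * (x i : ℝ) ^ (2 * r)) →
    ∀ z : ℕ, Real.log N ^ D ≤ z → (z : ℝ) ≤ Real.log N ^ E →
      (exceptions ε A N x s 𝒬 z : ℝ) ≤ (∏ i, (x i : ℝ)) / Real.log N ^ A := by
  obtain ⟨D, hD⟩ := Pool.Agent.K7.H49.LT.dense_primes k A (B + 2) H ε hε
  obtain ⟨C₀, hC₀, hPle⟩ := Pool.Agent.H646.ChebM.P_le
  refine ⟨D, fun E => ?_⟩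
  obtain ⟨N0, h0⟩ := hD E
  obtain ⟨N1, h1⟩ := Pool.Agent.H373R2.T7.ev_L' (2 + C₀)
  refine ⟨max N0 (max N1 1), fun N hN 𝒬 h𝒬' x s hs hE z hz1 hz2 => ?_⟩
  have hLC := h1 N (((le_max_left _ _).trans (le_max_right _ _)).trans hN)
  have hN1 : 1 ≤ N := ((le_max_right _ _).trans (le_max_right _ _)).trans hN
  have hN0r : (0 : ℝ) < N := by exact_mod_cast hN1
  have h𝒬 : ∀ q ∈ 𝒬, q.Prime ∧ q ≤ N := by
    rcases h𝒬' with h | ⟨n, hn, rfl⟩
    · exact h
    · intro m hm
      unfold primesOf at hm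
      rw [mem_filter, mem_image] at hm
      obtain ⟨⟨j, hj, hjm⟩, hm2⟩ := hm
      refine ⟨hm2, ?_⟩
      rw [mem_Icc] at hj
      unfold q at hjm
      have g1 := Nat.totient_le j
      have g2 := Nat.totient_le (n - j)
      omega
  set L := Real.log N with hLd
  have hL1 : 1 ≤ L := by linarith
  have hL0 : 0 < L := by linarith
  have hL2 : 2 ≤ L := by linarith
  set f : Fin k → ℕ → ℕ := fun _ m => ((p m : ℤ) - m).toNat with hf
  have hfz : ∀ i : Fin k, ∀ m ∈ 𝒬, ((f i m : ℕ) : ℤ) = (p m : ℤ) - m :=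
    fun i m hm => Int.toNat_of_nonneg (pos (h𝒬 m hm).1.one_le).le
  have hLBB : L ^ B ≤ L ^ (B + 2) := pow_le_pow_right₀ hL1 (by omega)
  have key := h0 N ((le_max_left _ _).trans hN) x s 𝒬 f
    (fun i m hm => by
      have g1 := hfz i m hm
      obtain ⟨g2, g3⟩ := h𝒬 m hm
      have g4 := pos g2.one_le
      refine ⟨by omega, ?_⟩
      have g5 : f i m ≤ Nat.nth Nat.Prime m := by
        have h2 : p m ≤ Nat.nth Nat.Prime m := by
          unfold p
          exact Nat.nth_monotone Nat.infinite_setOfPred_prime (by omega)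
        omega
      have g6 := hPle m g2.two_le
      have g7 : (m : ℝ) ≤ N := by exact_mod_cast g3
      have g8 : (1 : ℝ) ≤ m := by exact_mod_cast g2.one_le
      have g9 : Real.log m ≤ L := Real.log_le_log (by linarith) g7
      have g10 : 0 ≤ Real.log m := Real.log_nonneg g8
      calc ((f i m : ℕ) : ℝ) ≤ (Nat.nth Nat.Prime m : ℝ) := by exact_mod_cast g5
        _ ≤ C₀ * (m * Real.log m) := g6
        _ ≤ L * (N * L) := by
            apply mul_le_mul (by linarith) (mul_le_mul g7 g9 g10 hN0r.le) (by positivity) hL0.le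
        _ = N * L ^ 2 := by ring
        _ ≤ N * L ^ (B + 2) := by
            apply mul_le_mul_of_nonneg_left _ hN0r.le
            exact pow_le_pow_right₀ hL1 (by omega))
    (fun i m hm m' hm' hne h => by
      have g1 := hfz i m hm
      have g2 := hfz i m' hm'
      rw [h, g2] at g1
      rcases lt_or_gt_of_ne hne with hlt | hlt
      · have := inj (h𝒬 m hm).1.two_le hlt
        linarith
      · have := inj (h𝒬 m' hm').1.two_le hlt
        linarith)
    (fun i l hl => (hs i l hl).1.trans (mul_le_mul_of_nonneg_left hLBB hN0r.le))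
    (fun i l hl m hm => by
      rw [hfz i m hm]
      exact (hs i l hl).2 m hm)
    (fun i => by
      obtain ⟨r, hr, hEr⟩ := hE i
      exact ⟨r, hr, (show _ ≤ _ from hEr).trans (mul_le_mul_of_nonneg_right hLBB (by positivity))⟩) z hz1 hz2
  refine le_trans ?_ key
  unfold exceptions
  apply Nat.cast_le.2
  apply card_le_card
  intro l hl
  rw [mem_filter] at hl ⊢
  refine ⟨hl.1, fun h5 => hl.2 ?_⟩
  have e1 : Pool.Agent.K7.H49.LT.cntD f (fun i => s i (l i)) 𝒬 = count (fun i => s i (l i)) 𝒬 := by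
    unfold Pool.Agent.K7.H49.LT.cntD count
    congr 1
    apply filter_congr
    intro m hm
    constructor
    · intro h i
      rw [← hfz i m hm]
      exact h i
    · intro h i
      rw [hfz i m hm]
      exact h i
  have e2 : Pool.Agent.K7.H49.LT.SfD f (fun i => s i (l i)) 𝒬 z = (Pool.Agent.H373R2.T7.Vz z)⁻¹ ^ k *
      rough (fun i => s i (l i)) 𝒬 z := by
    unfold Pool.Agent.K7.H49.LT.SfD rough
    have e3 : 𝒬.filter (fun n => ∀ p ∈ Pool.Agent.H373R2.T7.pz z, ∀ i, ¬ (p : ℤ) ∣ (f i n : ℤ) + s i (l i)) =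
        𝒬.filter (fun m => ∀ q ∈ (Icc 1 z).filter Nat.Prime, ∀ i, ¬ (q : ℤ) ∣ (p m : ℤ) - m + s i (l i)) := by
      apply filter_congr
      intro m hm
      constructor
      · intro h q hq i
        rw [← hfz i m hm]
        exact h q hq i
      · intro h q hq i
        rw [hfz i m hm]
        exact h q hq i
    rw [e3]
  rw [e1, e2] at h5
  have hV : Pool.Agent.H373R2.T7.Vz z = ∏ q ∈ (Icc 1 z).filter Nat.Prime, (1 - 1 / (q : ℝ)) := rfl
  set M := L ^ k with hM
  have hM1 : 1 ≤ M := one_le_pow₀ hL1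
  have hM0 : 0 < M := by linarith
  have e3 : expected (fun i => s i (l i)) 𝒬 z N =
      ((Pool.Agent.H373R2.T7.Vz z)⁻¹ ^ k * rough (fun i => s i (l i)) 𝒬 z) / M := by
    unfold expected
    rw [← hV, mul_pow, ← hM]
    ring
  rw [e3]
  set r := (Pool.Agent.H373R2.T7.Vz z)⁻¹ ^ k * (rough (fun i => s i (l i)) 𝒬 z : ℝ)
  set ct := (count (fun i => s i (l i)) 𝒬 : ℝ)
  have e4 : ct - r / M = (ct * M - r) / M := by field_simp
  rw [e4, abs_div, abs_of_pos hM0, div_le_iff₀ hM0]
  refine h5.trans ?_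
  have hn : (0 : ℝ) ≤ N / L ^ A := by positivity
  have e5 : ε * (r / M) * M = ε * r := by field_simp
  rw [add_mul, e5]
  nlinarith

end Pool.Agent.Results.MP_61a569_nt.ThinShifts
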