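import Pool.Agent.K7.H49.PR.Geo
import Pool.Agent.K7.H67.BG.Fam
import Pool.Agent.Results.MP_61a569_nt.ThinShifts

/-!
# Primes `q` with `p_q - q + h_1, ..., p_q - q + h_k` prime for almost all shifts from multiplicative and multilinear families

The problem asks for primes `q` (of the form `q(n,k)`) with `p_q - q - 1` and `p_q - q + 1` prime. Here `-1` and `1` are replaced by almost all vectors of
shifts `h_1, ..., h_k` from families of residues modulo primes `P` of about the size `N` of the numbers `q`, with only `P ^ δ` members, `δ > 0` arbitrary: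

* the least residues of `b u ^ l + t` modulo `P`, `1 ≤ l ≤ x`, where `P ^ δ ≤ x` and `x` is at most the order of `u` (for instance the outputs of linear
  congruential generators, or the cosets of a small subgroup);
* the least residues modulo `P` of `u_1 ⋯ u_K + f_1 + … + f_K`, where `u_j` runs over an arbitrary set of at least `P ^ δ` residues, `f_j` is an
  arbitrary function of the variables other than `u_j`, and `K ≥ K₀ (δ)`;
* more generally all families whose exponential sums modulo `P` have a power saving.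

The additive energies of these families are nearly minimal by bounds for exponential sums of the type of Bourgain, Glibichuk and Konyagin
(`Pool/Agent/K7/H67/BG`), and so `ThinShifts` (helper49) applies.
-/

set_option autoImplicit false

namespace Pool.Agent.Results.MP_61a569_nt.MultilinearShifts

open Finset

/-- The `m`-th prime: `p 1 = 2`, `p 2 = 3`. -/
noncomputable def p (m : ℕ) : ℕ := Nat.nth Nat.Prime (m - 1)

/-- `q n k = φ(k) + φ(n - k) / 2 + 1`. -/
def q (n k : ℕ) : ℕ := Nat.totient k + Nat.totient (n - k) / 2 + 1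

/-- the set of the primes `q n k`, `1 ≤ k < n - 2` -/
def primesOf (n : ℕ) : Finset ℕ := ((Icc 1 (n - 3)).image (q n)).filter Nat.Prime

/-- `𝒬` is a set of primes up to `N`, or the set of the primes `q n k` of one `n ≤ N` -/
def Admissible (N : ℕ) (𝒬 : Finset ℕ) : Prop := (∀ q ∈ 𝒬, q.Prime ∧ q ≤ N) ∨ ∃ n ≤ N, 𝒬 = primesOf n

/-- the number of the `m ∈ 𝒬` for which all the numbers `p_m - m + h_i` are prime (they are positive in the theorem) -/
noncomputable def count {k : ℕ} (h : Fin k → ℤ) (𝒬 : Finset ℕ) : ℕ :=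
  (𝒬.filter (fun m => ∀ i, ((p m : ℤ) - m + h i).toNat.Prime)).card

/-- the number of the `m ∈ 𝒬` for which none of the numbers `p_m - m + h_i` has a prime factor `≤ z` -/
noncomputable def rough {k : ℕ} (h : Fin k → ℤ) (𝒬 : Finset ℕ) (z : ℕ) : ℕ :=
  (𝒬.filter (fun m => ∀ q ∈ (Icc 1 z).filter Nat.Prime, ∀ i, ¬ (q : ℤ) ∣ (p m : ℤ) - m + h i)).card

/-- the prediction: the density of the primes among the integers of size `N` without prime factors `≤ z` is
`1 / (log N ∏_{q ≤ z} (1 - 1/q))` -/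
noncomputable def expected {k : ℕ} (h : Fin k → ℤ) (𝒬 : Finset ℕ) (z N : ℕ) : ℝ :=
  rough h 𝒬 z / (Real.log N * ∏ q ∈ (Icc 1 z).filter Nat.Prime, (1 - 1 / (q : ℝ))) ^ k

open Classical in
/-- The shifts `h_i` are taken from the families `s_i(a)`, `a ∈ T_i`. The number of the vectors `v` with `v_i ∈ T_i` for which the number of the
`m ∈ 𝒬` with all `p_m - m + s_i(v_i)` prime is not as predicted. -/
noncomputable def exceptions {k : ℕ} {α : Fin k → Type} (ε : ℝ) (A N : ℕ) (T : ∀ i, Finset (α i)) (s : ∀ i, α i → ℤ) (𝒬 : Finset ℕ) (z : ℕ) : ℕ :=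
  ((Fintype.piFinset T).filter (fun v => ¬
    |(count (fun i => s i (v i)) 𝒬 : ℝ) - expected (fun i => s i (v i)) 𝒬 z N| ≤
      ε * expected (fun i => s i (v i)) 𝒬 z N + N / Real.log N ^ A)).card

/-- `P` is at least `N / (log N) ^ B`, `γ ≠ 0`, and all `c + γ r`, `0 ≤ r ≤ P`, have absolute value at most `N (log N) ^ B` and all
`p_m - m + c + γ r`, `m ∈ 𝒬`, are positive. -/
def Range (N B : ℕ) (𝒬 : Finset ℕ) (P : ℕ) (γ c : ℤ) : Prop :=
  (N : ℝ) ≤ P * Real.log N ^ B ∧ γ ≠ 0 ∧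
    ∀ r : ℕ, r ≤ P → |((c + γ * r : ℤ) : ℝ)| ≤ N * Real.log N ^ B ∧ ∀ m ∈ 𝒬, 0 < (p m : ℤ) - m + (c + γ * r)

/-- the least residue of `b u ^ l + t` modulo `P` -/
def power {P : ℕ} (b t : ZMod P) (u : (ZMod P)ˣ) (l : ℕ) : ℕ := (b * ((u ^ l : (ZMod P)ˣ) : ZMod P) + t).val

/-- the least residue of `u_1 ⋯ u_K + f_1 (u) + … + f_K (u)` modulo `P` -/
def multilinear {P K : ℕ} (f : Fin K → (Fin K → ZMod P) → ZMod P) (u : Fin K → ZMod P) : ℕ := (∏ i, u i + ∑ i, f i u).val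

lemma crit (k A B : ℕ) (δ ε : ℝ) (hδ : 0 < δ) (hε : 0 < ε) : ∃ D : ℕ, ∀ E : ℕ, ∃ N₀ : ℕ, ∀ N : ℕ, N₀ ≤ N →
    ∀ 𝒬 : Finset ℕ, Admissible N 𝒬 →
    ∀ (α : Fin k → Type) (T : ∀ i, Finset (α i)) (t : ∀ i, α i → ℕ) (P : Fin k → ℕ) (γ c : Fin k → ℤ),
    (∀ i, 1 ≤ P i ∧ Range N B 𝒬 (P i) (γ i) (c i) ∧ (∀ a ∈ T i, t i a ≤ P i) ∧ ∀ j : ℕ, 1 ≤ j → j < P i →
      ‖∑ a ∈ T i, Complex.exp (2 * Real.pi * Complex.I * ((j : ℂ) * t i a / P i))‖ ≤ (T i).card * (P i : ℝ) ^ (-δ)) →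
    ∀ z : ℕ, Real.log N ^ D ≤ z → (z : ℝ) ≤ Real.log N ^ E →
      (exceptions ε A N T (fun i a => c i + γ i * t i a) 𝒬 z : ℝ) ≤ (∏ i, ((T i).card : ℝ)) / Real.log N ^ A := by
  classical
  obtain ⟨h, hh, hen⟩ := Pool.Agent.K7.H49.PR.en_delta δ hδ
  obtain ⟨D, hD⟩ := ThinShifts.result k A (B + 1) h ε hε
  refine ⟨D, fun E => ?_⟩
  obtain ⟨n1, hfam⟩ := hD E
  obtain ⟨n2, hn2⟩ := Pool.Agent.K7.H49.SM.ev_log 2
  refine ⟨max n1 n2, fun N hN 𝒬 h𝒬 α T t P γ c hfm z hz1 hz2 => ?_⟩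
  have hL2 := hn2 N (le_trans (le_max_right _ _) hN)
  have hL0 : 0 < Real.log (N : ℝ) := by linarith
  have hL1 : 1 ≤ Real.log (N : ℝ) := by linarith
  by_cases hne : ∀ i, (T i).Nonempty
  swap
  · push Not at hne
    obtain ⟨i, hi⟩ := hne
    have h1 : Fintype.piFinset T = ∅ := by
      rw [Fintype.piFinset_eq_empty]
      exact ⟨i, hi⟩
    unfold exceptions
    rw [h1, filter_empty, card_empty, Nat.cast_zero]
    apply div_nonneg (prod_nonneg fun _ _ => Nat.cast_nonneg _) (by positivity)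
  choose a₀ ha₀ using hne
  choose e he1 he2 he3 using fun i => Pool.Agent.K7.H49.PR.enumA (T i) (a₀ i)
  have hLB : Real.log (N : ℝ) ^ B ≤ Real.log N ^ (B + 1) := pow_le_pow_right₀ hL1 (by omega)
  have h1 := hfam N (le_trans (le_max_left _ _) hN) 𝒬 h𝒬 (fun i => (T i).card) (fun i m => c i + γ i * t i (e i m))
    (fun i l hl => by
      obtain ⟨-, ⟨-, -, h4⟩, h5, -⟩ := hfm i
      have h6 := h4 (t i (e i l)) (h5 _ (he1 i l hl))
      exact ⟨h6.1.trans (mul_le_mul_of_nonneg_left hLB (Nat.cast_nonneg _)), h6.2⟩)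
    (fun i => by
      obtain ⟨hP, ⟨h3, hγ, -⟩, -, h5⟩ := hfm i
      have h2 := hen (α i) (T i) (t i) (P i) hP (fun j hj1 hj2 => by
        have h6 := h5 j hj1 hj2
        refine le_trans (le_of_eq ?_) h6
        congr 1
        apply sum_congr rfl
        intro a _
        rw [Pool.Agent.H807R2.Dav.ee]
        congr 1
        push_cast
        ring) (e i) (he1 i) (he2 i) (he3 i)
      refine ⟨h, le_rfl, ?_⟩
      have h4 : ThinShifts.energy h (T i).card (fun m => c i + γ i * t i (e i m)) =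
          Pool.Agent.H560R3.GB.energy h (T i).card (fun m => t i (e i m)) := by
        have h6 := Pool.Agent.K7.H49.LT.energy_affine h (T i).card (fun m => (t i (e i m) : ℤ)) (γ i) (c i) hγ
        have h7 : (fun l => (t i (e i l) : ℤ) * γ i + c i) = fun m => c i + γ i * t i (e i m) := by
          funext m
          ring
        rw [h7] at h6
        change Pool.Agent.H373R2.T7.energy h (T i).card (fun m => c i + γ i * t i (e i m)) = _
        rw [h6]
        unfold Pool.Agent.H373R2.T7.energy Pool.Agent.H560R3.GB.energy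
        congr 1
        apply filter_congr
        intro w _
        beta_reduce
        constructor
        · intro h8
          exact_mod_cast h8
        · intro h8
          exact_mod_cast h8
      rw [h4]
      have h6 : (0 : ℝ) ≤ Pool.Agent.H560R3.GB.energy h (T i).card (fun m => t i (e i m)) := Nat.cast_nonneg _
      calc (Pool.Agent.H560R3.GB.energy h (T i).card (fun m => t i (e i m)) : ℝ) * N ≤
          (Pool.Agent.H560R3.GB.energy h (T i).card (fun m => t i (e i m)) : ℝ) * (P i * Real.log N ^ B) :=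
            mul_le_mul_of_nonneg_left h3 h6
        _ = (Pool.Agent.H560R3.GB.energy h (T i).card (fun m => t i (e i m)) : ℝ) * P i * Real.log N ^ B := by ring
        _ ≤ 2 * ((T i).card : ℝ) ^ (2 * h) * Real.log N ^ B := by gcongr
        _ ≤ Real.log N * ((T i).card : ℝ) ^ (2 * h) * Real.log N ^ B := by gcongr
        _ = Real.log N ^ (B + 1) * ((T i).card : ℝ) ^ (2 * h) := by ring) z hz1 hz2
  refine le_trans ?_ h1
  rw [Nat.cast_le]
  unfold exceptions ThinShifts.exceptions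
  apply card_le_card_of_surjOn (fun m : Fin k → ℕ => fun i => e i (m i))
  intro l hl
  rw [mem_coe, mem_filter, Fintype.mem_piFinset] at hl
  choose m hm hml using fun i => he3 i (l i) (hl.1 i)
  refine ⟨m, ?_, funext hml⟩
  rw [mem_coe, mem_filter, Fintype.mem_piFinset]
  refine ⟨hm, ?_⟩
  have e1 : (fun i => c i + γ i * (t i (e i (m i)) : ℤ)) = fun i => c i + γ i * (t i (l i) : ℤ) := by
    funext i
    rw [hml i]
  change ¬ |(ThinShifts.count (fun i => c i + γ i * (t i (e i (m i)) : ℤ)) 𝒬 : ℝ) -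
    ThinShifts.expected (fun i => c i + γ i * (t i (e i (m i)) : ℤ)) 𝒬 z N| ≤
      ε * ThinShifts.expected (fun i => c i + γ i * (t i (e i (m i)) : ℤ)) 𝒬 z N + N / Real.log N ^ A
  rw [e1]
  exact hl.2

/-- the least residues are at most the modulus -/
lemma val_le' {P : ℕ} [NeZero P] (a : ZMod P) : a.val ≤ P := (ZMod.val_lt a).le

/-- a lower bound for the primes -/
lemma big_of (N B P : ℕ) (p₀ : ℕ) (hL1 : 1 < Real.log (N : ℝ)) (hN : (p₀ : ℝ) * Real.log N ^ B ≤ N) (hP : (N : ℝ) ≤ P * Real.log N ^ B) :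
    p₀ ≤ P := by
  have h1 : (0 : ℝ) < Real.log N ^ B := by positivity
  have h2 : (p₀ : ℝ) * Real.log N ^ B ≤ P * Real.log N ^ B := hN.trans hP
  exact_mod_cast le_of_mul_le_mul_right h2 h1

/-- **Primes `q` with `p_q - q + h_1, ..., p_q - q + h_k` prime for almost all shifts from pseudorandom families.** Let `𝒬` be any set of primes
`q ≤ N`, for instance the set of the primes `q(n,k)`, `1 ≤ k < n - 2`, of one `n ≤ N`. For all but a proportion `(log N) ^ (-A)` of the vectors of members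
of the families the number of the `q ∈ 𝒬` for which all `p_q - q + h_i` are prime is the number of those for which none of them has a prime factor `≤ z`,
divided by `(log N ∏_{q ≤ z} (1 - 1/q)) ^ k`, up to `ε` times this quantity plus `N / (log N) ^ A`, for all `z` between `(log N) ^ D` and `(log N) ^ E`:

(1) for families `c + γ t(a)`, where the exponential sums of the natural numbers `t(a) ≤ P` modulo `P` have a power saving;
(2) for the numbers `c + γ r`, `r` the least residue of `b u ^ l + t` modulo the prime `P`, `1 ≤ l ≤ x`, `P ^ δ ≤ x ≤ ord (u)`;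
(3) for the numbers `c + γ r`, `r` the least residue of `u_1 ⋯ u_K + f_1 + … + f_K` modulo the prime `P`, `u_j` in sets of at least `P ^ δ` residues,
`K ≥ K₀`. -/
theorem result (k A B : ℕ) (δ ε : ℝ) (hδ : 0 < δ) (hε : 0 < ε) :
    (∃ D : ℕ, ∀ E : ℕ, ∃ N₀ : ℕ, ∀ N : ℕ, N₀ ≤ N → ∀ 𝒬 : Finset ℕ, Admissible N 𝒬 →
      ∀ (α : Fin k → Type) (T : ∀ i, Finset (α i)) (t : ∀ i, α i → ℕ) (P : Fin k → ℕ) (γ c : Fin k → ℤ),
      (∀ i, 1 ≤ P i ∧ Range N B 𝒬 (P i) (γ i) (c i) ∧ (∀ a ∈ T i, t i a ≤ P i) ∧ ∀ j : ℕ, 1 ≤ j → j < P i →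
        ‖∑ a ∈ T i, Complex.exp (2 * Real.pi * Complex.I * ((j : ℂ) * t i a / P i))‖ ≤ (T i).card * (P i : ℝ) ^ (-δ)) →
      ∀ z : ℕ, Real.log N ^ D ≤ z → (z : ℝ) ≤ Real.log N ^ E →
        (exceptions ε A N T (fun i a => c i + γ i * t i a) 𝒬 z : ℝ) ≤ (∏ i, ((T i).card : ℝ)) / Real.log N ^ A) ∧
    (∃ D : ℕ, ∀ E : ℕ, ∃ N₀ : ℕ, ∀ N : ℕ, N₀ ≤ N → ∀ 𝒬 : Finset ℕ, Admissible N 𝒬 →
      ∀ P : Fin k → ℕ, (∀ i, (P i).Prime) → ∀ γ c : Fin k → ℤ, (∀ i, Range N B 𝒬 (P i) (γ i) (c i)) →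
      ∀ (b t : ∀ i, ZMod (P i)) (u : ∀ i, (ZMod (P i))ˣ) (x : Fin k → ℕ),
      (∀ i, b i ≠ 0 ∧ (P i : ℝ) ^ δ ≤ x i ∧ x i ≤ orderOf (u i)) →
      ∀ z : ℕ, Real.log N ^ D ≤ z → (z : ℝ) ≤ Real.log N ^ E →
        (exceptions ε A N (fun i => Icc 1 (x i)) (fun i l => c i + γ i * power (b i) (t i) (u i) l) 𝒬 z : ℝ) ≤
          (∏ i, (x i : ℝ)) / Real.log N ^ A) ∧
    (∃ K₀ : ℕ, ∀ K : ℕ, K₀ ≤ K → ∃ D : ℕ, ∀ E : ℕ, ∃ N₀ : ℕ, ∀ N : ℕ, N₀ ≤ N → ∀ 𝒬 : Finset ℕ, Admissible N 𝒬 →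
      ∀ P : Fin k → ℕ, (∀ i, (P i).Prime) → ∀ γ c : Fin k → ℤ, (∀ i, Range N B 𝒬 (P i) (γ i) (c i)) →
      ∀ (U : ∀ i, Fin K → Finset (ZMod (P i))) (f : ∀ i, Fin K → (Fin K → ZMod (P i)) → ZMod (P i)),
      (∀ i j, (P i : ℝ) ^ δ ≤ (U i j).card) →
      (∀ (i : Fin k) (j : Fin K) (v w : Fin K → ZMod (P i)), (∀ l, l ≠ j → v l = w l) → f i j v = f i j w) →
      ∀ z : ℕ, Real.log N ^ D ≤ z → (z : ℝ) ≤ Real.log N ^ E →
        (exceptions ε A N (fun i => Fintype.piFinset (U i)) (fun i u => c i + γ i * multilinear (f i) u) 𝒬 z : ℝ) ≤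
          (∏ i, ∏ j, ((U i j).card : ℝ)) / Real.log N ^ A) := by
  classical
  have hev : ∀ p₀ : ℕ, ∃ N₂ : ℕ, ∀ N : ℕ, N₂ ≤ N → 1 < Real.log (N : ℝ) ∧ (p₀ : ℝ) * Real.log N ^ B ≤ N := by
    intro p₀
    have h1 : Filter.Tendsto (fun x : ℝ => Real.log x ^ B / x) Filter.atTop (nhds 0) := by
      have := Real.isLittleO_pow_log_id_atTop (n := B)
      exact this.tendsto_div_nhds_zero
    have h2 : ∀ᶠ N : ℕ in Filter.atTop, Real.log (N : ℝ) ^ B / N < 1 / (p₀ + 1) :=
      (h1.comp tendsto_natCast_atTop_atTop).eventually_lt_const (by positivity)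
    have h3 : ∀ᶠ N : ℕ in Filter.atTop, 1 < Real.log (N : ℝ) :=
      (Real.tendsto_log_atTop.comp tendsto_natCast_atTop_atTop).eventually (Filter.eventually_gt_atTop 1)
    obtain ⟨N₂, hN₂⟩ := Filter.eventually_atTop.1 (h2.and (h3.and (Filter.eventually_ge_atTop 1)))
    refine ⟨N₂, fun N hN => ?_⟩
    obtain ⟨g1, g2, g3⟩ := hN₂ N hN
    refine ⟨g2, ?_⟩
    have hN0 : (0 : ℝ) < N := by exact_mod_cast g3
    rw [div_lt_div_iff₀ hN0 (by positivity)] at g1
    have g4 : (0 : ℝ) ≤ Real.log N ^ B := by positivity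
    nlinarith
  refine ⟨crit k A B δ ε hδ hε, ?_, ?_⟩
  · obtain ⟨η, hη, p₀, hsup⟩ := Pool.Agent.K7.H67.BG.pw_sup δ hδ
    obtain ⟨D, hD⟩ := crit k A B η ε hη hε
    refine ⟨D, fun E => ?_⟩
    obtain ⟨N₁, h1⟩ := hD E
    obtain ⟨N₂, h2⟩ := hev p₀
    refine ⟨max N₁ N₂, fun N hN 𝒬 h𝒬 P hP γ c hR b t u x hx z hz1 hz2 => ?_⟩
    obtain ⟨g1, g2⟩ := h2 N ((le_max_right _ _).trans hN)
    have h4 := h1 N ((le_max_left _ _).trans hN) 𝒬 h𝒬 (fun _ => ℕ) (fun i => Icc 1 (x i))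
      (fun i => power (b i) (t i) (u i)) P γ c (fun i => by
        have : NeZero (P i) := ⟨(hP i).ne_zero⟩
        refine ⟨(hP i).one_lt.le, hR i, fun a _ => val_le' _, fun j hj1 hj2 => ?_⟩
        have h5 := hsup (P i) (big_of N B (P i) p₀ g1 g2 (hR i).1) (hP i) (b i) (t i) (u i) (x i) (hx i).1 (hx i).2.1 (hx i).2.2
          j hj1 hj2
        refine le_trans (le_of_eq ?_) h5
        congr 1
        apply sum_congr rfl
        intro a _
        rw [Pool.Agent.H807R2.Dav.ee]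
        unfold Pool.Agent.K7.H67.BG.pres power
        congr 1
        push_cast
        ring) z hz1 hz2
    have h5 : ∀ i, (((Icc 1 (x i)).card : ℕ) : ℝ) = x i := by
      intro i
      rw [Nat.card_Icc, Nat.add_sub_cancel]
    simp only [h5] at h4
    exact h4
  · obtain ⟨K₀, hK₀⟩ := Pool.Agent.K7.H67.BG.vec_sup δ hδ
    refine ⟨K₀, fun K hK => ?_⟩
    obtain ⟨η, hη, p₀, hsup⟩ := hK₀ K hK
    obtain ⟨D, hD⟩ := crit k A B η ε hη hε
    refine ⟨D, fun E => ?_⟩
    obtain ⟨N₁, h1⟩ := hD E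
    obtain ⟨N₂, h2⟩ := hev p₀
    refine ⟨max N₁ N₂, fun N hN 𝒬 h𝒬 P hP γ c hR U f hU hf z hz1 hz2 => ?_⟩
    obtain ⟨g1, g2⟩ := h2 N ((le_max_right _ _).trans hN)
    have h4 := h1 N ((le_max_left _ _).trans hN) 𝒬 h𝒬 (fun i => Fin K → ZMod (P i)) (fun i => Fintype.piFinset (U i))
      (fun i => multilinear (f i)) P γ c (fun i => by
        have : NeZero (P i) := ⟨(hP i).ne_zero⟩
        refine ⟨(hP i).one_lt.le, hR i, fun a _ => val_le' _, fun j hj1 hj2 => ?_⟩
        have h5 := hsup (P i) (big_of N B (P i) p₀ g1 g2 (hR i).1) (hP i) (U i) (hU i) (f i) (hf i) j hj1 hj2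
        refine le_trans (le_of_eq ?_) h5
        congr 1
        apply sum_congr rfl
        intro a _
        rw [Pool.Agent.H807R2.Dav.ee]
        unfold Pool.Agent.K7.H67.BG.vres multilinear
        congr 1
        push_cast
        ring) z hz1 hz2
    have h5 : ∀ i, (((Fintype.piFinset (U i)).card : ℕ) : ℝ) = ∏ j, ((U i j).card : ℝ) := by
      intro i
      rw [Fintype.card_piFinset]
      push_cast
      rfl
    simp only [h5] at h4
    exact h4

end Pool.Agent.Results.MP_61a569_nt.MultilinearShifts
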