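import Pool.Agent.K7.H67.EN.Fl
import Pool.Agent.Results.MP_61a569_nt.ThinShifts

/-!
# Primes `q` with `p_q - q + h_1, ..., p_q - q + h_k` prime for almost all shifts from smooth sequences

The problem asks for primes `q` (of the form `q(n,k)`) with `p_q - q - 1` and `p_q - q + 1` prime. Here `-1` and `1` are replaced by almost all vectors of
shifts `h_1, ..., h_k` from sequences of integer parts of smooth functions, for instance of the integers `⌊α (X + l) ^ κ + β⌋`, `1 ≤ l ≤ L`, where `κ`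
is any real number except `0, 1, 2, ...`, of size about `N`, and `L` may be as small as `N ^ δ`, `δ > 0` arbitrary.

The additive energies of these sequences are shown to be nearly minimal: the exponential sums over `α F(n)` are small for all `α` between `1 / A` and
`1`, where `A` is the size of the function, by the theorem of Kusmin and Landau for `α` near `1 / A` and by the theorem of van der Corput for all other
`α` (`Pool/Agent/K7/H67/EN`). So `ThinShifts` (helper49) applies.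
-/

set_option autoImplicit false

namespace Pool.Agent.Results.MP_61a569_nt.SmoothShifts

open Finset

/-- The `m`-th prime: `p 1 = 2`, `p 2 = 3`. -/
noncomputable def p (m : ℕ) : ℕ := Nat.nth Nat.Prime (m - 1)

/-- `q n k = φ(k) + φ(n - k) / 2 + 1`. -/
def q (n k : ℕ) : ℕ := Nat.totient k + Nat.totient (n - k) / 2 + 1

/-- the set of the primes `q n k`, `1 ≤ k < n - 2` -/
def primesOf (n : ℕ) : Finset ℕ := ((Icc 1 (n - 3)).image (q n)).filter Nat.Prime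

/-- `𝒬` is a set of primes up to `N`, or the set of the primes `q n k` of one `n ≤ N` -/
def Admissible (N : ℕ) (𝒬 : Finset ℕ) : Prop := (∀ q ∈ 𝒬, q.Prime ∧ q ≤ N) ∨ ∃ n ≤ N, 𝒬 = primesOf n

/-- the number of the `m ∈ 𝒬` for which all the numbers `p_m - m + h_i` are prime (they are positive in the theorem) -/
noncomputable def count {k : ℕ} (h : Fin k → ℤ) (𝒬 : Finset ℕ) : ℕ :=
  (𝒬.filter (fun m => ∀ i, ((p m : ℤ) - m + h i).toNat.Prime)).card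

/-- the number of the `m ∈ 𝒬` for which none of the numbers `p_m - m + h_i` has a prime factor `≤ z` -/
noncomputable def rough {k : ℕ} (h : Fin k → ℤ) (𝒬 : Finset ℕ) (z : ℕ) : ℕ :=
  (𝒬.filter (fun m => ∀ q ∈ (Icc 1 z).filter Nat.Prime, ∀ i, ¬ (q : ℤ) ∣ (p m : ℤ) - m + h i)).card

/-- the prediction: the density of the primes among the integers of size `N` without prime factors `≤ z` is
`1 / (log N ∏_{q ≤ z} (1 - 1/q))` -/
noncomputable def expected {k : ℕ} (h : Fin k → ℤ) (𝒬 : Finset ℕ) (z N : ℕ) : ℝ :=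
  rough h 𝒬 z / (Real.log N * ∏ q ∈ (Icc 1 z).filter Nat.Prime, (1 - 1 / (q : ℝ))) ^ k

open Classical in
/-- The number of the vectors `l`, `1 ≤ l_i ≤ L_i`, for which the number of the `m ∈ 𝒬` with all `p_m - m + s_i(l_i)` prime is not as predicted. -/
noncomputable def exceptions {k : ℕ} (ε : ℝ) (A N : ℕ) (L : Fin k → ℕ) (s : Fin k → ℕ → ℤ) (𝒬 : Finset ℕ) (z : ℕ) : ℕ :=
  ((Fintype.piFinset fun i => Icc 1 (L i)).filter (fun l => ¬
    |(count (fun i => s i (l i)) 𝒬 : ℝ) - expected (fun i => s i (l i)) 𝒬 z N| ≤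
      ε * expected (fun i => s i (l i)) 𝒬 z N + N / Real.log N ^ A)).card

/-- All the shifts `s(l)`, `1 ≤ l ≤ L`, have absolute value at most `N (log N) ^ B`, and all `p_m - m + s(l)`, `m ∈ 𝒬`, are positive. -/
def Range (N B : ℕ) (𝒬 : Finset ℕ) (L : ℕ) (s : ℕ → ℤ) : Prop :=
  ∀ l ∈ Icc 1 L, |(s l : ℝ)| ≤ N * Real.log N ^ B ∧ ∀ m ∈ 𝒬, 0 < (p m : ℤ) - m + s l

/-- `F 0` is a function with the derivatives `F 1, ..., F (K + 2)`; its derivative of order `j` is on `[X, 3 X]` between `T / (C X ^ j)` and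
`C T / X ^ j` in absolute value for `1 ≤ j ≤ K + 1`, and the derivative of order `K + 2` is of one sign there. -/
def Smooth (K : ℕ) (C : ℝ) (X : ℕ) (T : ℝ) (F : ℕ → ℝ → ℝ) : Prop :=
  (∀ r < K + 2, ∀ x : ℝ, 0 < x → HasDerivAt (F r) (F (r + 1) x) x) ∧
  (∀ j : ℕ, 1 ≤ j → j ≤ K + 1 → ∀ y : ℝ, X ≤ y → y ≤ 3 * X →
    T / (C * (X : ℝ) ^ j) ≤ |F j y| ∧ |F j y| ≤ C * T / (X : ℝ) ^ j) ∧
  ((∀ y : ℝ, X ≤ y → y ≤ 3 * X → F (K + 2) y ≤ 0) ∨ (∀ y : ℝ, X ≤ y → y ≤ 3 * X → 0 ≤ F (K + 2) y))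

/-- `N / (log N) ^ B` is larger than any constant -/
lemma hev (B : ℕ) (M : ℝ) : ∃ N₂ : ℕ, ∀ N : ℕ, N₂ ≤ N → 1 < Real.log (N : ℝ) ∧ M * Real.log N ^ B ≤ N := by
  have h1 : Filter.Tendsto (fun x : ℝ => Real.log x ^ B / x) Filter.atTop (nhds 0) := by
    have := Real.isLittleO_pow_log_id_atTop (n := B)
    exact this.tendsto_div_nhds_zero
  have h2 : ∀ᶠ N : ℕ in Filter.atTop, Real.log (N : ℝ) ^ B / N < 1 / (|M| + 1) :=
    (h1.comp tendsto_natCast_atTop_atTop).eventually_lt_const (by positivity)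
  have h3 : ∀ᶠ N : ℕ in Filter.atTop, 1 < Real.log (N : ℝ) :=
    (Real.tendsto_log_atTop.comp tendsto_natCast_atTop_atTop).eventually (Filter.eventually_gt_atTop 1)
  obtain ⟨N₂, hN₂⟩ := Filter.eventually_atTop.1 (h2.and (h3.and (Filter.eventually_ge_atTop 1)))
  refine ⟨N₂, fun N hN => ?_⟩
  obtain ⟨g1, g2, g3⟩ := hN₂ N hN
  refine ⟨g2, ?_⟩
  have hN0 : (0 : ℝ) < N := by exact_mod_cast g3
  rw [div_lt_div_iff₀ hN0 (by positivity)] at g1
  have g4 : (0 : ℝ) ≤ Real.log N ^ B := by positivity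
  have g5 : M * Real.log N ^ B ≤ |M| * Real.log N ^ B := mul_le_mul_of_nonneg_right (le_abs_self M) g4
  linarith

lemma X_big (X X₀ K : ℕ) (T τ : ℝ) (hτ : 0 < τ) (h1 : T ≤ (X : ℝ) ^ ((K : ℝ) + 1 - τ)) (h2 : ((X₀ : ℝ) + 1) ^ (K + 1) < T) : X₀ ≤ X := by
  by_contra hcon
  push Not at hcon
  have h3 : (X : ℝ) ^ ((K : ℝ) + 1 - τ) ≤ ((X₀ : ℝ) + 1) ^ (K + 1) := by
    have hX0 : (1 : ℝ) ≤ (X₀ : ℝ) + 1 := by linarith [(Nat.cast_nonneg X₀ : (0 : ℝ) ≤ X₀)]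
    rcases Nat.eq_zero_or_pos X with h | h
    · rw [h, Nat.cast_zero]
      exact (Real.zero_rpow_le_one _).trans (one_le_pow₀ hX0)
    · have h4 : (1 : ℝ) ≤ X := by exact_mod_cast h
      calc (X : ℝ) ^ ((K : ℝ) + 1 - τ) ≤ (X : ℝ) ^ ((K + 1 : ℕ) : ℝ) := by
            apply Real.rpow_le_rpow_of_exponent_le h4
            push_cast
            linarith
        _ = (X : ℝ) ^ (K + 1) := Real.rpow_natCast _ _
        _ ≤ ((X₀ : ℝ) + 1) ^ (K + 1) := by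
            apply pow_le_pow_left₀ (by linarith)
            have : (X : ℝ) ≤ X₀ := by exact_mod_cast hcon.le
            linarith
  linarith

/-- the theorem for smooth functions -/
lemma smooth_part (k A B K : ℕ) (C τ ε : ℝ) (hC : 1 ≤ C) (hτ : 0 < τ) (hε : 0 < ε) :
    ∃ D : ℕ, ∀ E : ℕ, ∃ N₀ : ℕ, ∀ N : ℕ, N₀ ≤ N → ∀ 𝒬 : Finset ℕ, Admissible N 𝒬 →
      ∀ (F : Fin k → ℕ → ℝ → ℝ) (T : Fin k → ℝ) (X L : Fin k → ℕ),
      (∀ i, Smooth K C (X i) (T i) (F i) ∧ N ≤ T i * Real.log N ^ B ∧ T i ≤ (X i : ℝ) ^ ((K : ℝ) + 1 - τ) ∧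
        L i ≤ X i ∧ X i ≤ L i * Real.log N ^ B ∧ Range N B 𝒬 (L i) (fun l => ⌊F i 0 ((X i : ℝ) + l)⌋)) →
      ∀ z : ℕ, Real.log N ^ D ≤ z → (z : ℝ) ≤ Real.log N ^ E →
        (exceptions ε A N L (fun i l => ⌊F i 0 ((X i : ℝ) + l)⌋) 𝒬 z : ℝ) ≤ (∏ i, (L i : ℝ)) / Real.log N ^ A := by
  obtain ⟨r, hr, C', hC', X₀, hen⟩ := Pool.Agent.K7.H67.EN.en_floor K C τ hC hτ
  obtain ⟨D, hD⟩ := ThinShifts.result k A (B * (2 * r + 1) + 1) r ε hε
  refine ⟨D, fun E => ?_⟩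
  obtain ⟨N₁, h1⟩ := hD E
  obtain ⟨N₂, h2⟩ := hev B (max (8 * r) (((X₀ : ℝ) + 1) ^ (K + 1) + 1))
  obtain ⟨N₃, h3⟩ := Pool.Agent.H373R2.T7.ev_L' C'
  refine ⟨max N₁ (max N₂ N₃), fun N hN 𝒬 h𝒬 F T X L hF z hz1 hz2 => ?_⟩
  obtain ⟨hL1, hM⟩ := h2 N (((le_max_left _ _).trans (le_max_right _ _)).trans hN)
  have hL3 := h3 N (((le_max_right _ _).trans (le_max_right _ _)).trans hN)
  have hL0 : 0 < Real.log (N : ℝ) := by linarith
  have hLB0 : 0 < Real.log (N : ℝ) ^ B := by positivity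
  have hr1 : (1 : ℝ) ≤ r := by exact_mod_cast hr
  have hpow1 : Real.log (N : ℝ) ^ B ≤ Real.log N ^ (B * (2 * r + 1) + 1) := by
    apply pow_le_pow_right₀ hL1.le
    nlinarith
  have h4 := h1 N ((le_max_left _ _).trans hN) 𝒬 h𝒬 L (fun i l => ⌊F i 0 ((X i : ℝ) + l)⌋) (fun i l hl => by
    obtain ⟨-, -, -, -, -, h5⟩ := hF i
    exact ⟨(h5 l hl).1.trans (mul_le_mul_of_nonneg_left hpow1 (Nat.cast_nonneg _)), (h5 l hl).2⟩) (fun i => by
      refine ⟨r, le_rfl, ?_⟩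
      obtain ⟨⟨g1, g2, g3⟩, g4, g5, g6, g7, -⟩ := hF i
      -- the size T i is large
      have hT : max (8 * (r : ℝ)) (((X₀ : ℝ) + 1) ^ (K + 1) + 1) ≤ T i := by
        have : max (8 * (r : ℝ)) (((X₀ : ℝ) + 1) ^ (K + 1) + 1) * Real.log N ^ B ≤ T i * Real.log N ^ B := hM.trans g4
        exact le_of_mul_le_mul_right this hLB0
      have hT1 : 8 * (r : ℝ) ≤ T i := (le_max_left _ _).trans hT
      have hT2 : ((X₀ : ℝ) + 1) ^ (K + 1) < T i := by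
        have := (le_max_right _ _).trans hT
        linarith
      have hX : X₀ ≤ X i := X_big (X i) X₀ K (T i) τ hτ g5 hT2
      have hS : Pool.Agent.K7.H67.EN.Smooth K C τ (X i) (T i) (F i) := ⟨g1, g2, g3, g5⟩
      have h5 := hen (X i) hX (T i) (F i) hS hT1 (L i) g6
      have h6 : (ThinShifts.energy r (L i) (fun l => ⌊F i 0 ((X i : ℝ) + l)⌋) : ℝ) * T i ≤ C' * (X i : ℝ) ^ (2 * r) := by
        refine le_trans (le_of_eq ?_) h5
        unfold ThinShifts.energy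
        push_cast
        rfl
      have h7 : (0 : ℝ) ≤ ThinShifts.energy r (L i) (fun l => ⌊F i 0 ((X i : ℝ) + l)⌋) := Nat.cast_nonneg _
      have h8 : (0 : ℝ) ≤ X i := Nat.cast_nonneg _
      have h9 : (0 : ℝ) ≤ L i := Nat.cast_nonneg _
      calc (ThinShifts.energy r (L i) (fun l => ⌊F i 0 ((X i : ℝ) + l)⌋) : ℝ) * N
          ≤ (ThinShifts.energy r (L i) (fun l => ⌊F i 0 ((X i : ℝ) + l)⌋) : ℝ) * (T i * Real.log N ^ B) :=
            mul_le_mul_of_nonneg_left g4 h7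
        _ = ((ThinShifts.energy r (L i) (fun l => ⌊F i 0 ((X i : ℝ) + l)⌋) : ℝ) * T i) * Real.log N ^ B := by ring
        _ ≤ (C' * (X i : ℝ) ^ (2 * r)) * Real.log N ^ B := mul_le_mul_of_nonneg_right h6 hLB0.le
        _ ≤ (Real.log N * (L i * Real.log N ^ B) ^ (2 * r)) * Real.log N ^ B := by gcongr
        _ = Real.log N ^ (B * (2 * r + 1) + 1) * (L i : ℝ) ^ (2 * r) := by
            rw [mul_pow, ← pow_mul]
            ring) z hz1 hz2
  exact h4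

/-- **Primes `q` with `p_q - q + h_1, ..., p_q - q + h_k` prime for almost all shifts from smooth sequences.** Let `𝒬` be any set of primes `q ≤ N`,
for instance the set of the primes `q(n,k)`, `1 ≤ k < n - 2`, of one `n ≤ N`. Let `s_i(l)`, `1 ≤ l ≤ L_i`, be the integers

(1) `⌊F_i (X_i + l)⌋`, where `F_i` is a smooth function on `[X_i, 3 X_i]` of size `T_i ≥ N / (log N) ^ B`, `T_i ≤ X_i ^ (K + 1 - τ)` and
`X_i / (log N) ^ B ≤ L_i ≤ X_i`; or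

(2) `⌊α_i (X_i + l) ^ κ_i + β_i⌋`, where the real number `κ_i` is not one of `0, 1, 2, ...`, `X_i ≥ N ^ δ`, `X_i / (log N) ^ B ≤ L_i ≤ X_i` and
`N / (log N) ^ B ≤ |α_i| X_i ^ κ_i ≤ N (log N) ^ B`.

Then for all but a proportion `(log N) ^ (-A)` of the vectors `l` the number of the `q ∈ 𝒬` for which all `p_q - q + s_i(l_i)` are prime is the number
of those for which none of them has a prime factor `≤ z`, divided by `(log N ∏_{q ≤ z} (1 - 1/q)) ^ k`, up to `ε` times this quantity plus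
`N / (log N) ^ A`, for all `z` between `(log N) ^ D` and `(log N) ^ E`. -/
theorem result (k A B : ℕ) (ε : ℝ) (hε : 0 < ε) :
    (∀ (K : ℕ) (C τ : ℝ), 1 ≤ C → 0 < τ → ∃ D : ℕ, ∀ E : ℕ, ∃ N₀ : ℕ, ∀ N : ℕ, N₀ ≤ N → ∀ 𝒬 : Finset ℕ, Admissible N 𝒬 →
      ∀ (F : Fin k → ℕ → ℝ → ℝ) (T : Fin k → ℝ) (X L : Fin k → ℕ),
      (∀ i, Smooth K C (X i) (T i) (F i) ∧ N ≤ T i * Real.log N ^ B ∧ T i ≤ (X i : ℝ) ^ ((K : ℝ) + 1 - τ) ∧
        L i ≤ X i ∧ X i ≤ L i * Real.log N ^ B ∧ Range N B 𝒬 (L i) (fun l => ⌊F i 0 ((X i : ℝ) + l)⌋)) →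
      ∀ z : ℕ, Real.log N ^ D ≤ z → (z : ℝ) ≤ Real.log N ^ E →
        (exceptions ε A N L (fun i l => ⌊F i 0 ((X i : ℝ) + l)⌋) 𝒬 z : ℝ) ≤ (∏ i, (L i : ℝ)) / Real.log N ^ A) ∧
    (∀ (κ : Fin k → ℝ) (δ : ℝ), (∀ i, ∀ n : ℕ, κ i ≠ n) → 0 < δ → ∃ D : ℕ, ∀ E : ℕ, ∃ N₀ : ℕ, ∀ N : ℕ, N₀ ≤ N →
      ∀ 𝒬 : Finset ℕ, Admissible N 𝒬 → ∀ (α β : Fin k → ℝ) (X L : Fin k → ℕ),
      (∀ i, (N : ℝ) ^ δ ≤ X i ∧ N ≤ |α i| * (X i : ℝ) ^ κ i * Real.log N ^ B ∧ |α i| * (X i : ℝ) ^ κ i ≤ N * Real.log N ^ B ∧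
        L i ≤ X i ∧ X i ≤ L i * Real.log N ^ B ∧ Range N B 𝒬 (L i) (fun l => ⌊α i * ((X i : ℝ) + l) ^ κ i + β i⌋)) →
      ∀ z : ℕ, Real.log N ^ D ≤ z → (z : ℝ) ≤ Real.log N ^ E →
        (exceptions ε A N L (fun i l => ⌊α i * ((X i : ℝ) + l) ^ κ i + β i⌋) 𝒬 z : ℝ) ≤ (∏ i, (L i : ℝ)) / Real.log N ^ A) := by
  refine ⟨fun K C τ hC hτ => smooth_part k A B K C τ ε hC hτ hε, fun κ δ hκ hδ => ?_⟩
  obtain ⟨K, hK⟩ : ∃ K : ℕ, K = ⌈2 / δ⌉₊ := ⟨_, rfl⟩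
  have hKδ : 2 ≤ δ * K := by
    have h1 : 2 / δ ≤ K := by rw [hK]; exact Nat.le_ceil _
    rw [div_le_iff₀ hδ] at h1
    linarith
  choose C hC hS using fun i => Pool.Agent.K7.H67.EN.PS_smooth (κ i) (hκ i) K
  obtain ⟨M, hM⟩ := Finset.exists_le (univ.image C)
  obtain ⟨D, hD⟩ := smooth_part k A B K (max M 1) 1 ε (le_max_right _ _) one_pos hε
  refine ⟨D, fun E => ?_⟩
  obtain ⟨N₁, h1⟩ := hD E
  obtain ⟨N₂, h2⟩ := hev B 1
  refine ⟨max N₁ (max N₂ 1), fun N hN 𝒬 h𝒬 α β X L hX z hz1 hz2 => ?_⟩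
  obtain ⟨hL1, hLN⟩ := h2 N (((le_max_left _ _).trans (le_max_right _ _)).trans hN)
  have hN1 : 1 ≤ N := ((le_max_right _ _).trans (le_max_right _ _)).trans hN
  have hNr : (1 : ℝ) ≤ N := by exact_mod_cast hN1
  have hN0 : (0 : ℝ) < N := by linarith
  have h3 := h1 N ((le_max_left _ _).trans hN) 𝒬 h𝒬 (fun i => Pool.Agent.K7.H67.VDC.PS (α i) (κ i) (β i))
    (fun i => |α i| * (X i : ℝ) ^ κ i) X L (fun i => by
      obtain ⟨g1, g2, g3, g4, g5, g6⟩ := hX i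
      have hXr : (1 : ℝ) ≤ X i := (Real.one_le_rpow hNr hδ.le).trans g1
      have hX1 : 1 ≤ X i := by exact_mod_cast hXr
      have hle : |α i| * (X i : ℝ) ^ κ i ≤ (X i : ℝ) ^ ((K : ℝ) + 1 - 1) := by
        calc |α i| * (X i : ℝ) ^ κ i ≤ N * Real.log N ^ B := g3
          _ ≤ N * N := by
              apply mul_le_mul_of_nonneg_left _ hN0.le
              linarith
          _ = (N : ℝ) ^ (2 : ℝ) := by norm_num [pow_two]
          _ ≤ (N : ℝ) ^ (δ * K) := Real.rpow_le_rpow_of_exponent_le hNr hKδ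
          _ = ((N : ℝ) ^ δ) ^ (K : ℝ) := Real.rpow_mul hN0.le _ _
          _ ≤ (X i : ℝ) ^ (K : ℝ) := Real.rpow_le_rpow (by positivity) g1 (Nat.cast_nonneg _)
          _ = (X i : ℝ) ^ ((K : ℝ) + 1 - 1) := by ring_nf
      have hCM : C i ≤ max M 1 := (hM _ (mem_image_of_mem _ (mem_univ i))).trans (le_max_left _ _)
      have hA0 : 0 ≤ |α i| * (X i : ℝ) ^ κ i := by positivity
      have h4 := (hS i (X i) hX1 (α i) (β i) 1 hle).mono (lt_of_lt_of_le one_pos (hC i)) hCM hX1 hA0 le_rfl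
      refine ⟨⟨h4.deriv, h4.size, h4.sign⟩, g2, hle, g4, g5, ?_⟩
      simp only [Pool.Agent.K7.H67.VDC.PS_zero]
      exact g6) z hz1 hz2
  simp only [Pool.Agent.K7.H67.VDC.PS_zero] at h3
  exact h3

end Pool.Agent.Results.MP_61a569_nt.SmoothShifts
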